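import Mathlib

set_option autoImplicit false

namespace Pool.Agent.MP_1ce666_co

/-- An occurrence of `321` or of `3142`. -/
def Bad (s : List ℕ) : Prop :=
  (∃ a b c, a < b ∧ b < c ∧ s = [c, b, a]) ∨
    (∃ a b c d, a < b ∧ b < c ∧ c < d ∧ s = [c, a, d, b])

def Good (l : List ℕ) : Prop := ∀ s, s.Sublist l → ¬ Bad s

theorem Good.sublist {l l' : List ℕ} (h : Good l) (hs : l'.Sublist l) : Good l' :=
  fun s h' => h s (h'.trans hs)

/-- Raise the value `m` to `m + 1`. -/
def bump (m x : ℕ) : ℕ := if x = m then m + 1 else x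

theorem bad_map_bump {m : ℕ} {s : List ℕ} (hs : ∀ x ∈ s, x ≤ m) :
    Bad (s.map (bump m)) ↔ Bad s := by
  constructor
  · rintro (⟨a, b, c, h1, h2, h⟩ | ⟨a, b, c, d, h1, h2, h3, h⟩)
    · match s, hs, h with
      | [z, y, x], hs, h =>
        simp only [List.map_cons, List.map_nil, List.cons.injEq, and_true] at h
        obtain ⟨rfl, rfl, rfl⟩ := h
        have := hs x (by simp)
        have := hs y (by simp)
        have := hs z (by simp)
        refine Or.inl ⟨x, y, z, ?_, ?_, rfl⟩ <;>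
        · unfold bump at h1 h2; split_ifs at h1 h2 <;> omega
    · match s, hs, h with
      | [z, x, w, y], hs, h =>
        simp only [List.map_cons, List.map_nil, List.cons.injEq, and_true] at h
        obtain ⟨rfl, rfl, rfl, rfl⟩ := h
        have := hs x (by simp)
        have := hs y (by simp)
        have := hs z (by simp)
        have := hs w (by simp)
        refine Or.inr ⟨x, y, z, w, ?_, ?_, ?_, rfl⟩ <;>
        · unfold bump at h1 h2 h3; split_ifs at h1 h2 h3 <;> omega
  · rintro (⟨a, b, c, h1, h2, rfl⟩ | ⟨a, b, c, d, h1, h2, h3, rfl⟩)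
    · have := hs c (by simp)
      refine Or.inl ⟨bump m a, bump m b, bump m c, ?_, ?_, rfl⟩ <;>
      · unfold bump; split_ifs <;> omega
    · have := hs d (by simp)
      refine Or.inr ⟨bump m a, bump m b, bump m c, bump m d, ?_, ?_, ?_, rfl⟩ <;>
      · unfold bump; split_ifs <;> omega

theorem good_map_bump {m : ℕ} {l : List ℕ} (hl : ∀ x ∈ l, x ≤ m) :
    Good (l.map (bump m)) ↔ Good l := by
  constructor
  · intro h s hs hb
    exact h _ (hs.map _) ((bad_map_bump (fun x hx => hl x (hs.subset hx))).2 hb)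
  · intro h s hs hb
    obtain ⟨s', hs', rfl⟩ := List.sublist_map_iff.1 hs
    exact h _ hs' ((bad_map_bump (fun x hx => hl x (hs'.subset hx))).1 hb)

theorem bad_concat {s : List ℕ} {x : ℕ} (h : Bad (s ++ [x])) : ∃ z ∈ s, x + 2 ≤ z := by
  rcases h with ⟨a, b, c, h1, h2, h⟩ | ⟨a, b, c, d, h1, h2, h3, h⟩
  · have h' : s ++ [x] = [c, b] ++ [a] := h
    obtain ⟨rfl, h''⟩ := List.append_inj' h' rfl
    have : x = a := by simpa using h''
    exact ⟨c, by simp, by omega⟩
  · have h' : s ++ [x] = [c, a, d] ++ [b] := h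
    obtain ⟨rfl, h''⟩ := List.append_inj' h' rfl
    have : x = b := by simpa using h''
    exact ⟨d, by simp, by omega⟩

theorem good_concat {l : List ℕ} {x : ℕ} (h : Good l) (hx : ∀ z ∈ l, z ≤ x + 1) :
    Good (l ++ [x]) := by
  intro s hs hb
  obtain ⟨s1, s2, rfl, h1, h2⟩ := List.sublist_append_iff.1 hs
  rcases List.sublist_singleton.1 h2 with rfl | rfl
  · exact h _ (by simpa using h1) hb
  · obtain ⟨z, hz, hz'⟩ := bad_concat hb
    have := hx z (h1.subset hz)
    omega

theorem not_bad_adjacent (s1 s2 : List ℕ) (x : ℕ) : ¬ Bad (s1 ++ x :: (x + 1) :: s2) := by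
  rintro (⟨a, b, c, h1, h2, h⟩ | ⟨a, b, c, d, h1, h2, h3, h⟩)
  · match s1, h with
    | [], h => simp at h; omega
    | [_], h => simp at h; omega
    | [_, _], h => simp at h
    | _ :: _ :: _ :: _, h => simp at h
  · match s1, h with
    | [], h => simp at h; omega
    | [_], h => simp at h; omega
    | [_, _], h => simp at h; omega
    | [_, _, _], h => simp at h
    | _ :: _ :: _ :: _ :: _, h => simp at h

theorem map_bump_of_lt {m : ℕ} {l : List ℕ} (hl : ∀ x ∈ l, x < m) : l.map (bump m) = l := by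
  conv_rhs => rw [← List.map_id l]
  refine List.map_congr_left (fun x hx => ?_)
  have := hl x hx
  simp only [bump, id]
  split_ifs <;> omega

theorem map_bump_split {m : ℕ} {u w : List ℕ} (hu : ∀ x ∈ u, x < m) (hw : ∀ x ∈ w, x < m) :
    (u ++ m :: w).map (bump m) = u ++ (m + 1) :: w := by
  rw [List.map_append, List.map_cons, map_bump_of_lt hu, map_bump_of_lt hw]
  simp [bump]

theorem le_of_split {m : ℕ} {u w : List ℕ} (hu : ∀ x ∈ u, x < m) (hw : ∀ x ∈ w, x < m) :
    ∀ x ∈ u ++ m :: w, x ≤ m := by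
  intro x hx
  simp only [List.mem_append, List.mem_cons] at hx
  rcases hx with hx | rfl | hx
  · exact (hu x hx).le
  · exact le_rfl
  · exact (hw x hx).le

theorem good_double {m : ℕ} {u w : List ℕ} (hu : ∀ x ∈ u, x < m) (hw : ∀ x ∈ w, x < m)
    (h : Good (u ++ m :: w)) : Good (u ++ m :: (m + 1) :: w) := by
  intro s hs hb
  obtain ⟨s1, s2, rfl, h1, h2⟩ := List.sublist_append_iff.1 hs
  rcases List.sublist_cons_iff.1 h2 with h2 | ⟨s3, rfl, h3⟩
  · have hg : Good (u ++ (m + 1) :: w) := by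
      rw [← map_bump_split hu hw]
      exact (good_map_bump (le_of_split hu hw)).2 h
    exact hg _ (h1.append h2) hb
  · rcases List.sublist_cons_iff.1 h3 with h3 | ⟨s4, rfl, _⟩
    · exact h _ (h1.append (h3.cons_cons m)) hb
    · exact not_bad_adjacent _ _ _ hb

/-- Permutations of `0, ..., n - 1`, as lists, avoiding `321` and `3142`. -/
def A (n : ℕ) : Set (List ℕ) := {l | l.Perm (List.range n) ∧ Good l}

/-- Pairs (part before the maximum `m`, part after it). -/
def P (m : ℕ) : Set (List ℕ × List ℕ) :=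
  {p | (p.1 ++ p.2).Perm (List.range m) ∧ Good (p.1 ++ m :: p.2)}

/-- The maximum is not the last letter. -/
def Q (m : ℕ) : Set (List ℕ × List ℕ) := {p | p ∈ P m ∧ p.2 ≠ []}

theorem lt_of_perm {u w : List ℕ} {m : ℕ} (h : (u ++ w).Perm (List.range m)) :
    (∀ x ∈ u, x < m) ∧ ∀ x ∈ w, x < m :=
  ⟨fun x hx => List.mem_range.1 (h.subset (List.mem_append_left _ hx)),
    fun x hx => List.mem_range.1 (h.subset (List.mem_append_right _ hx))⟩

theorem perm_insert_iff {u w : List ℕ} {m : ℕ} :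
    (u ++ m :: w).Perm (List.range (m + 1)) ↔ (u ++ w).Perm (List.range m) := by
  rw [List.range_succ]
  have h1 : (u ++ m :: w).Perm (m :: (u ++ w)) := List.perm_middle
  have h2 : (List.range m ++ [m]).Perm (m :: List.range m) := List.perm_append_singleton _ _
  rw [h1.congr_left, h2.congr_right, List.perm_cons]

theorem split_unique {m : ℕ} {u w u' w' : List ℕ} (hu : ∀ x ∈ u, x < m) (hu' : ∀ x ∈ u', x < m)
    (h : u ++ m :: w = u' ++ m :: w') : u = u' ∧ w = w' := by
  induction u generalizing u' with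
  | nil =>
    cases u' with
    | nil => simpa using h
    | cons a t =>
      have := hu' a (by simp)
      simp at h
      omega
  | cons b s ih =>
    cases u' with
    | nil =>
      have := hu b (by simp)
      simp at h
      omega
    | cons a t =>
      simp only [List.cons_append, List.cons.injEq] at h
      obtain ⟨rfl, h⟩ := h
      obtain ⟨rfl, rfl⟩ := ih (fun x hx => hu x (by simp [hx])) (fun x hx => hu' x (by simp [hx])) h
      exact ⟨rfl, rfl⟩

theorem ncard_A_succ (m : ℕ) : (A (m + 1)).ncard = (P m).ncard := by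
  symm
  refine Set.ncard_congr (fun p _ => p.1 ++ m :: p.2) ?_ ?_ ?_
  · rintro ⟨u, w⟩ ⟨h1, h2⟩
    exact ⟨perm_insert_iff.2 h1, h2⟩
  · rintro ⟨u, w⟩ ⟨u', w'⟩ ⟨h1, _⟩ ⟨h1', _⟩ h
    obtain ⟨h3, h4⟩ := split_unique (lt_of_perm h1).1 (lt_of_perm h1').1 h
    exact Prod.ext h3 h4
  · rintro l ⟨h1, h2⟩
    have hm : m ∈ l := h1.symm.subset (by simp)
    obtain ⟨u, w, rfl⟩ := List.append_of_mem hm
    exact ⟨(u, w), ⟨perm_insert_iff.1 h1, h2⟩, rfl⟩

theorem finite_P (m : ℕ) : (P m).Finite := by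
  have hfin : {l : List ℕ | l.Perm (List.range (m + 1))}.Finite := by
    refine (List.finite_toSet (List.range (m + 1)).permutations).subset (fun l hl => ?_)
    exact List.mem_permutations.2 hl
  refine Set.Finite.of_finite_image (f := fun p => p.1 ++ m :: p.2) (hfin.subset ?_) ?_
  · rintro _ ⟨⟨u, w⟩, ⟨h1, _⟩, rfl⟩
    exact perm_insert_iff.2 h1
  · rintro ⟨u, w⟩ ⟨h1, _⟩ ⟨u', w'⟩ ⟨h1', _⟩ h
    obtain ⟨h3, h4⟩ := split_unique (lt_of_perm h1).1 (lt_of_perm h1').1 h
    exact Prod.ext h3 h4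

theorem finite_Q (m : ℕ) : (Q m).Finite := (finite_P m).subset (fun _ h => h.1)

theorem P_succ (m : ℕ) :
    P (m + 1) = (fun p : List ℕ × List ℕ => (p.1 ++ m :: p.2, ([] : List ℕ))) '' P m ∪
      Q (m + 1) := by
  ext ⟨u, w⟩
  constructor
  · rintro ⟨h1, h2⟩
    by_cases hw : w = []
    · subst hw
      left
      simp only [List.append_nil] at h1
      have hm : m ∈ u := h1.symm.subset (by simp)
      obtain ⟨u1, u2, rfl⟩ := List.append_of_mem hm
      exact ⟨(u1, u2), ⟨perm_insert_iff.1 h1, h2.sublist (List.sublist_append_left _ _)⟩, rfl⟩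
    · exact Or.inr ⟨⟨h1, h2⟩, hw⟩
  · rintro (⟨⟨u1, u2⟩, ⟨h1, h2⟩, h⟩ | h)
    · obtain ⟨rfl, rfl⟩ := Prod.mk.inj h
      refine ⟨by simpa using perm_insert_iff.2 h1, good_concat h2 (fun z hz => ?_)⟩
      have := le_of_split (lt_of_perm h1).1 (lt_of_perm h1).2 z hz
      omega
    · exact h.1

theorem Q_succ (m : ℕ) :
    Q (m + 1) = (fun p : List ℕ × List ℕ => (p.1, p.2 ++ [m])) '' P m ∪
      (fun p : List ℕ × List ℕ => (p.1 ++ [m], p.2)) '' Q m := by
  ext ⟨u, w⟩
  constructor
  · rintro ⟨⟨h1, h2⟩, hw⟩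
    simp only at h1 h2 hw
    have hm : m ∈ u ++ w := h1.symm.subset (by simp)
    rcases List.mem_append.1 hm with hm | hm
    · right
      obtain ⟨u1, u2, rfl⟩ := List.append_of_mem hm
      have h1' : (u1 ++ (u2 ++ w)).Perm (List.range m) :=
        perm_insert_iff.1 (by simpa using h1)
      cases u2 with
      | nil =>
        refine ⟨(u1, w), ⟨⟨by simpa using h1', h2.sublist ?_⟩, hw⟩, by simp⟩
        simp
      | cons e t =>
        exfalso
        obtain ⟨b, w', rfl⟩ := List.exists_cons_of_ne_nil hw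
        have he : e < m := (lt_of_perm h1').2 e (by simp)
        have hb : b < m := (lt_of_perm h1').2 b (by simp)
        have hnd : (u1 ++ (e :: t ++ b :: w')).Nodup := h1'.symm.nodup List.nodup_range
        have hne : e ≠ b := by
          rintro rfl
          simp [List.nodup_append] at hnd
        have hsub : [m, e, m + 1, b].Sublist (u1 ++ m :: e :: t ++ (m + 1) :: b :: w') := by
          have h3 : [m, e].Sublist (u1 ++ m :: e :: t) :=
            List.Sublist.trans (by simp) (List.sublist_append_right u1 _)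
          have h4 : [m + 1, b].Sublist ((m + 1) :: b :: w') := by simp
          exact h3.append h4
        rcases lt_or_gt_of_ne hne with h | h
        · exact h2 _ hsub (Or.inr ⟨e, b, m, m + 1, h, hb, by omega, rfl⟩)
        · exact h2 [m, e, b] (List.Sublist.trans (by simp) hsub) (Or.inl ⟨b, e, m, h, he, rfl⟩)
    · left
      obtain ⟨w1, w2, rfl⟩ := List.append_of_mem hm
      have h1' : ((u ++ w1) ++ w2).Perm (List.range m) :=
        perm_insert_iff.1 (by simpa using h1)
      cases w2 with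
      | nil =>
        have h1'' : (u ++ w1).Perm (List.range m) := by simpa using h1'
        refine ⟨(u, w1), ⟨h1'', ?_⟩, by simp⟩
        have hlt := lt_of_perm h1''
        refine (good_map_bump (le_of_split hlt.1 hlt.2)).1 ?_
        rw [map_bump_split hlt.1 hlt.2]
        refine h2.sublist ?_
        simp
      | cons e t =>
        exfalso
        have he : e < m := (lt_of_perm h1').2 e (by simp)
        refine h2 [m + 1, m, e] ?_ (Or.inl ⟨e, m, m + 1, he, by omega, rfl⟩)
        refine List.Sublist.trans ?_ (List.sublist_append_right u _)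
        refine List.Sublist.cons_cons _ ?_
        exact List.Sublist.trans (by simp) (List.sublist_append_right w1 _)
  · rintro (⟨⟨u1, u2⟩, ⟨h1, h2⟩, h⟩ | ⟨⟨u1, u2⟩, ⟨⟨h1, h2⟩, h3⟩, h⟩)
    · obtain ⟨rfl, rfl⟩ := Prod.mk.inj h
      simp only at h1 h2
      have hlt := lt_of_perm h1
      refine ⟨⟨?_, ?_⟩, by simp⟩
      · have := perm_insert_iff (u := u1 ++ u2) (w := []) (m := m)
        simpa using this.2 (by simpa using h1)
      · have hg : Good (u1 ++ (m + 1) :: u2) := by
          rw [← map_bump_split hlt.1 hlt.2]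
          exact (good_map_bump (le_of_split hlt.1 hlt.2)).2 h2
        have := good_concat (x := m) hg (le_of_split (fun x hx => (hlt.1 x hx).trans (by omega))
          (fun x hx => (hlt.2 x hx).trans (by omega)))
        simpa using this
    · obtain ⟨rfl, rfl⟩ := Prod.mk.inj h
      simp only at h1 h2 h3
      have hlt := lt_of_perm h1
      refine ⟨⟨by simpa using perm_insert_iff.2 h1, ?_⟩, h3⟩
      simpa using good_double hlt.1 hlt.2 h2

theorem ncard_P_succ (m : ℕ) : (P (m + 1)).ncard = (P m).ncard + (Q (m + 1)).ncard := by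
  rw [P_succ m, Set.ncard_union_eq _ ((finite_P m).image _) (finite_Q _),
    Set.InjOn.ncard_image]
  · rintro ⟨u, w⟩ ⟨h1, _⟩ ⟨u', w'⟩ ⟨h1', _⟩ h
    obtain ⟨h3, h4⟩ := split_unique (lt_of_perm h1).1 (lt_of_perm h1').1 (Prod.mk.inj h).1
    exact Prod.ext h3 h4
  · rw [Set.disjoint_left]
    rintro _ ⟨p, _, rfl⟩ h
    exact h.2 rfl

theorem ncard_Q_succ (m : ℕ) : (Q (m + 1)).ncard = (P m).ncard + (Q m).ncard := by
  rw [Q_succ m, Set.ncard_union_eq _ ((finite_P m).image _) ((finite_Q _).image _),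
    Set.InjOn.ncard_image, Set.InjOn.ncard_image]
  · rintro ⟨u, w⟩ _ ⟨u', w'⟩ _ h
    simpa using h
  · rintro ⟨u, w⟩ _ ⟨u', w'⟩ _ h
    simpa using h
  · rw [Set.disjoint_left]
    rintro _ ⟨⟨u, w⟩, ⟨h1, _⟩, rfl⟩ ⟨⟨u', w'⟩, _, h⟩
    have h2 : u' ++ [m] = u := (Prod.mk.inj h).1
    have := (lt_of_perm h1).1 m (by rw [← h2]; simp)
    omega

theorem P_zero : P 0 = {([], [])} := by
  ext ⟨u, w⟩
  simp only [P, List.range_zero, List.perm_nil, List.append_eq_nil_iff, Set.mem_ofPred_eq,
    Set.mem_singleton_iff, Prod.mk.injEq]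
  constructor
  · exact fun h => h.1
  · rintro ⟨rfl, rfl⟩
    refine ⟨⟨rfl, rfl⟩, fun s hs hb => ?_⟩
    have := hs.length_le
    rcases hb with ⟨a, b, c, _, _, rfl⟩ | ⟨a, b, c, d, _, _, _, rfl⟩ <;> simp at this

theorem Q_zero : Q 0 = ∅ := by
  ext ⟨u, w⟩
  simp only [Q, P_zero, Set.mem_singleton_iff, Prod.mk.injEq, Set.mem_ofPred_eq,
    Set.mem_empty_iff_false, iff_false]
  rintro ⟨⟨_, h⟩, h'⟩
  exact h' h

theorem ncard_P_Q (m : ℕ) :
    (P m).ncard = Nat.fib (2 * m + 1) ∧ (Q m).ncard = Nat.fib (2 * m) := by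
  induction m with
  | zero => simp [P_zero, Q_zero]
  | succ m ih =>
    have hQ : (Q (m + 1)).ncard = Nat.fib (2 * (m + 1)) := by
      rw [ncard_Q_succ, ih.1, ih.2, show 2 * (m + 1) = 2 * m + 2 by ring, Nat.fib_add_two]
      omega
    refine ⟨?_, hQ⟩
    rw [ncard_P_succ, hQ, ih.1, show 2 * (m + 1) + 1 = (2 * m + 1) + 2 by ring, Nat.fib_add_two]
    rfl

theorem ncard_A (m : ℕ) : (A (m + 1)).ncard = Nat.fib (2 * m + 1) := by
  rw [ncard_A_succ, (ncard_P_Q m).1]

end Pool.Agent.MP_1ce666_co
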