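import Mathlib

set_option autoImplicit false

namespace Pool.Agent.MP_1ce666_co

open Equiv

variable {n : ℕ}

/-- The cycle of `σ` through `m`, written starting from `m`: `m, σ m, σ (σ m), ...`
(a fixed point gives the one-letter word). -/
noncomputable def cycleWord (σ : Perm (Fin n)) (m : Fin n) : List (Fin n) :=
  List.iterate σ m (Function.minimalPeriod σ m)

/-- The word of `θ(σ)`: standard cycle form of `σ` (each cycle starts with its largest element,
cycles ordered by increasing largest element) with the parentheses deleted. -/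
noncomputable def thetaWord (σ : Perm (Fin n)) : List (Fin n) :=
  ((List.finRange n).filter (fun m => decide (∀ x, σ.SameCycle m x → x ≤ m))).flatMap
    (cycleWord σ)

/-- `π` avoids the classical pattern `321`. -/
def Avoids321 (π : Perm (Fin n)) : Prop :=
  ¬ ∃ i j k : Fin n, i < j ∧ j < k ∧ π k < π j ∧ π j < π i

/-- `π` contains the arrow pattern `(12; 1 → 3)`; here `σ` is `θ⁻¹(π)`. -/
def ContainsArrow (π : Perm (Fin n)) : Prop :=
  ∃ σ : Perm (Fin n), thetaWord σ = List.ofFn π ∧
    ∃ x₁ x₂ x₃ : Fin n, x₁ < x₂ ∧ x₂ < x₃ ∧ π.symm x₁ < π.symm x₂ ∧ σ x₁ = x₃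

end Pool.Agent.MP_1ce666_co
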