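import Pool.Agent.MP_1ce666_co.Theta
import Pool.Agent.MP_1ce666_co.Count

set_option autoImplicit false

namespace Pool.Agent.MP_1ce666_co

open Equiv

variable {n : ℕ}

theorem sublist_ofFn_iff {f : Fin n → ℕ} {s : List ℕ} :
    s.Sublist (List.ofFn f) ↔ ∃ is : List (Fin n), is.Pairwise (· < ·) ∧ s = is.map f := by
  rw [List.ofFn_eq_map, List.sublist_map_iff]
  constructor
  · rintro ⟨is, h, rfl⟩
    exact ⟨is, (List.pairwise_lt_finRange n).sublist h, rfl⟩
  · rintro ⟨is, h, rfl⟩
    refine ⟨is, ?_, rfl⟩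
    refine List.sublist_of_subperm_of_pairwise (r := (· ≤ ·)) ?_ (h.imp le_of_lt)
      ((List.pairwise_lt_finRange n).imp le_of_lt)
    exact List.subperm_of_subset (h.imp ne_of_lt) (fun x _ => List.mem_finRange x)

/-- One-line word of `π` as a list of natural numbers. -/
def word (π : Perm (Fin n)) : List ℕ := List.ofFn (fun i => (π i).val)

theorem good_word_iff (π : Perm (Fin n)) :
    Good (word π) ↔ Avoids321 π ∧ ¬ Contains3142 π := by
  constructor
  · intro h
    constructor
    · rintro ⟨i, j, k, hij, hjk, h1, h2⟩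
      exact h _ (sublist_ofFn_iff.2 ⟨[i, j, k], by simp [hij, hjk, hij.trans hjk], rfl⟩)
        (Or.inl ⟨_, _, _, h1, h2, rfl⟩)
    · rintro ⟨i, j, k, l, hij, hjk, hkl, h1, h2, h3⟩
      exact h _ (sublist_ofFn_iff.2 ⟨[i, j, k, l], by
        simp [hij, hjk, hkl, hij.trans hjk, hjk.trans hkl, (hij.trans hjk).trans hkl], rfl⟩)
        (Or.inr ⟨_, _, _, _, h1, h2, h3, rfl⟩)
  · rintro ⟨h321, h3142⟩ s hs hb
    obtain ⟨is, hpw, rfl⟩ := sublist_ofFn_iff.1 hs
    rcases hb with ⟨a, b, c, h1, h2, h⟩ | ⟨a, b, c, d, h1, h2, h3, h⟩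
    · match is, hpw, h with
      | [i, j, k], hpw, h =>
        simp only [List.map_cons, List.map_nil, List.cons.injEq, and_true] at h
        obtain ⟨rfl, rfl, rfl⟩ := h
        simp only [List.pairwise_cons, List.mem_cons, List.not_mem_nil, or_false,
          forall_eq_or_imp, forall_eq] at hpw
        exact h321 ⟨i, j, k, hpw.1.1, hpw.2.1, h1, h2⟩
    · match is, hpw, h with
      | [i, j, k, l], hpw, h =>
        simp only [List.map_cons, List.map_nil, List.cons.injEq, and_true] at h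
        obtain ⟨rfl, rfl, rfl, rfl⟩ := h
        simp only [List.pairwise_cons, List.mem_cons, List.not_mem_nil, or_false,
          forall_eq_or_imp, forall_eq] at hpw
        exact h3142 ⟨i, j, k, l, hpw.1.1, hpw.2.1.1, hpw.2.2.1, h1, h2, h3⟩

theorem word_eq_map (π : Perm (Fin n)) : word π = (List.ofFn π).map Fin.val := by
  rw [List.map_ofFn]; rfl

theorem word_perm (π : Perm (Fin n)) : (word π).Perm (List.range n) := by
  rw [word_eq_map, ← List.map_coe_finRange_eq_range, List.ofFn_eq_map]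
  exact (Equiv.Perm.map_finRange_perm π).map _

theorem word_injective : Function.Injective (word : Perm (Fin n) → List ℕ) := by
  intro π τ h
  have := List.ofFn_injective h
  ext i
  exact congrFun this i

theorem exists_word {l : List ℕ} (h : l.Perm (List.range n)) : ∃ π : Perm (Fin n), word π = l := by
  have hlt : ∀ x ∈ l, x < n := fun x hx => List.mem_range.1 (h.subset hx)
  let l' : List (Fin n) := l.pmap Fin.mk hlt
  have hl' : l'.map Fin.val = l := by
    simp [l', List.map_pmap]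
  have hp : l'.Perm (List.finRange n) := by
    rw [← hl', ← List.map_coe_finRange_eq_range] at h
    exact (List.map_perm_map_iff Fin.val_injective).1 h
  obtain ⟨π, hπ⟩ := exists_perm_ofFn hp
  exact ⟨π, by rw [word_eq_map, hπ, hl']⟩

theorem main (n : ℕ) (hn : 1 ≤ n) :
    Nat.card {π : Perm (Fin n) // Avoids321 π ∧ ¬ ContainsArrow π} = Nat.fib (2 * n - 1) := by
  obtain ⟨m, rfl⟩ : ∃ m, n = m + 1 := ⟨n - 1, by omega⟩
  rw [show 2 * (m + 1) - 1 = 2 * m + 1 by omega, ← ncard_A]
  change {π : Perm (Fin (m + 1)) | Avoids321 π ∧ ¬ ContainsArrow π}.ncard = _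
  refine Set.ncard_congr (fun π _ => word π) ?_ ?_ ?_
  · rintro π ⟨h1, h2⟩
    exact ⟨word_perm π, (good_word_iff π).2 ⟨h1, fun h => h2 ((containsArrow_iff h1).2 h)⟩⟩
  · intro π τ _ _ h
    exact word_injective h
  · rintro l ⟨h1, h2⟩
    obtain ⟨π, rfl⟩ := exists_word h1
    obtain ⟨h3, h4⟩ := (good_word_iff π).1 h2
    exact ⟨π, ⟨h3, fun h => h4 ((containsArrow_iff h3).1 h)⟩, rfl⟩

end Pool.Agent.MP_1ce666_co
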