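import Pool.Agent.MP_1ce666_co.Defs

set_option autoImplicit false

namespace Pool.Agent.MP_1ce666_co

open Equiv

theorem flatMap_eq_append_cons {α β : Type} (f : α → List β) (ms : List α) (p : List β) (x : β)
    (r : List β) (h : ms.flatMap f = p ++ x :: r) :
    ∃ ms1 m ms2 s1 s2, ms = ms1 ++ m :: ms2 ∧ f m = s1 ++ x :: s2 ∧
      p = ms1.flatMap f ++ s1 ∧ r = s2 ++ ms2.flatMap f := by
  induction ms generalizing p with
  | nil => simp at h
  | cons a t ih =>
    rw [List.flatMap_cons] at h
    rcases List.append_eq_append_iff.1 h with ⟨q, h1, h2⟩ | ⟨q, h1, h2⟩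
    · obtain ⟨ms1, m, ms2, s1, s2, e1, e2, e3, e4⟩ := ih q h2
      exact ⟨a :: ms1, m, ms2, s1, s2, by simp [e1], e2, by simp [h1, e3], e4⟩
    · cases q with
      | nil =>
        obtain ⟨ms1, m, ms2, s1, s2, e1, e2, e3, e4⟩ := ih [] (by simpa using h2.symm)
        refine ⟨a :: ms1, m, ms2, s1, s2, by simp [e1], e2, ?_, e4⟩
        rw [List.flatMap_cons, List.append_assoc, ← e3, h1]
        simp
      | cons y q =>
        simp only [List.cons_append, List.cons.injEq] at h2
        obtain ⟨rfl, rfl⟩ := h2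
        exact ⟨[], a, t, p, q, rfl, h1, by simp, rfl⟩

theorem iterate_eq_append_cons {α : Type} (f : α → α) (s1 : List α) (m x : α) (s2 : List α)
    (k : ℕ) (h : List.iterate f m k = s1 ++ x :: s2) :
    m ∈ s1 ++ [x] ∧ (∀ y q, s2 = y :: q → f x = y) ∧ (s2 = [] → f x = f^[k] m) := by
  induction s1 generalizing m k with
  | nil =>
    cases k with
    | zero => simp at h
    | succ k =>
      simp only [List.iterate, List.nil_append, List.cons.injEq] at h
      obtain ⟨rfl, rfl⟩ := h
      refine ⟨by simp, ?_, ?_⟩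
      · intro y q hq
        cases k with
        | zero => simp at hq
        | succ k =>
          simp only [List.iterate, List.cons.injEq] at hq
          exact hq.1
      · intro hq
        cases k with
        | zero => rfl
        | succ k => simp [List.iterate] at hq
  | cons a t ih =>
    cases k with
    | zero => simp at h
    | succ k =>
      simp only [List.iterate, List.cons_append, List.cons.injEq] at h
      obtain ⟨rfl, h⟩ := h
      obtain ⟨_, h2, h3⟩ := ih (f m) k h
      exact ⟨by simp, h2, fun hq => by rw [h3 hq]; rfl⟩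

variable {n : ℕ}

theorem period_pos (σ : Perm (Fin n)) (m : Fin n) : 0 < Function.minimalPeriod σ m :=
  Function.minimalPeriod_pos_of_mem_periodicPts (σ.injective.mem_periodicPts m)

theorem mem_cycleWord {σ : Perm (Fin n)} {m x : Fin n} :
    x ∈ cycleWord σ m ↔ σ.SameCycle m x := by
  rw [cycleWord, List.mem_iterate]
  constructor
  · rintro ⟨i, _, rfl⟩
    exact ⟨(i : ℤ), by simp [Perm.iterate_eq_pow]⟩
  · intro h
    obtain ⟨i, rfl⟩ := h.exists_nat_pow_eq
    exact ⟨i % Function.minimalPeriod σ m, Nat.mod_lt _ (period_pos σ m),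
      by rw [Function.iterate_mod_minimalPeriod_eq]; rfl⟩

theorem nodup_cycleWord (σ : Perm (Fin n)) (m : Fin n) : (cycleWord σ m).Nodup := by
  rw [List.nodup_iff_injective_getElem]
  rintro ⟨i, hi⟩ ⟨j, hj⟩ h
  simp only [cycleWord, List.getElem_iterate] at h
  simp only [cycleWord, List.length_iterate] at hi hj
  exact Fin.ext (Function.iterate_injOn_Iio_minimalPeriod hi hj h)

theorem cycleWord_eq_cons (σ : Perm (Fin n)) (m : Fin n) : ∃ t, cycleWord σ m = m :: t := by
  obtain ⟨k, hk⟩ := Nat.exists_eq_succ_of_ne_zero (period_pos σ m).ne'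
  exact ⟨List.iterate σ (σ m) k, by rw [cycleWord, hk]; rfl⟩

/-- The list of cycle maxima. -/
def heads (σ : Perm (Fin n)) : List (Fin n) :=
  (List.finRange n).filter (fun m => decide (∀ x, σ.SameCycle m x → x ≤ m))

theorem thetaWord_eq (σ : Perm (Fin n)) : thetaWord σ = (heads σ).flatMap (cycleWord σ) := rfl

theorem mem_heads {σ : Perm (Fin n)} {m : Fin n} :
    m ∈ heads σ ↔ ∀ x, σ.SameCycle m x → x ≤ m := by
  simp [heads]

theorem pairwise_heads (σ : Perm (Fin n)) : (heads σ).Pairwise (· < ·) :=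
  (List.pairwise_lt_finRange n).filter _

theorem nodup_thetaWord (σ : Perm (Fin n)) : (thetaWord σ).Nodup := by
  rw [thetaWord_eq, List.nodup_flatMap]
  refine ⟨fun m _ => nodup_cycleWord σ m, ?_⟩
  refine (pairwise_heads σ).imp_of_mem (fun {a b} ha _ hab => ?_)
  intro x hxa hxb
  have h1 := mem_heads.1 ha b ((mem_cycleWord.1 hxa).trans (mem_cycleWord.1 hxb).symm)
  exact absurd hab (not_lt.2 h1)

theorem mem_thetaWord (σ : Perm (Fin n)) (x : Fin n) : x ∈ thetaWord σ := by
  classical
  obtain ⟨m, hm, hmax⟩ := Finset.exists_max_image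
    (Finset.univ.filter (fun y => σ.SameCycle x y)) id ⟨x, by simp [Perm.SameCycle.refl]⟩
  simp only [Finset.mem_filter, Finset.mem_univ, true_and, id] at hm hmax
  rw [thetaWord_eq, List.mem_flatMap]
  exact ⟨m, mem_heads.2 (fun y hy => hmax y (hm.trans hy)), mem_cycleWord.2 hm.symm⟩

theorem thetaWord_perm (σ : Perm (Fin n)) : (thetaWord σ).Perm (List.finRange n) :=
  (List.perm_ext_iff_of_nodup (nodup_thetaWord σ) (List.nodup_finRange n)).2
    (fun x => by simp [mem_thetaWord])

theorem dichotomy_list (σ : Perm (Fin n)) (p : List (Fin n)) (x : Fin n) (r : List (Fin n))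
    (h : thetaWord σ = p ++ x :: r) :
    (∃ y q, r = y :: q ∧ σ x = y ∧ ∃ z ∈ p ++ [x], y ≤ z) ∨
      (σ x ∈ p ++ [x] ∧ (∀ z ∈ p ++ [x], z ≤ σ x) ∧ ∀ y q, r = y :: q → σ x < y) := by
  obtain ⟨ms1, m, ms2, s1, s2, e1, e2, rfl, rfl⟩ :=
    flatMap_eq_append_cons _ _ _ _ _ (thetaWord_eq σ ▸ h)
  obtain ⟨h1, h2, h3⟩ := iterate_eq_append_cons σ s1 m x s2 _ e2
  have hpw := pairwise_heads σ
  have hm : m ∈ heads σ := by rw [e1]; simp
  have hle : ∀ z ∈ cycleWord σ m, z ≤ m := fun z hz => mem_heads.1 hm z (mem_cycleWord.1 hz)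
  have hm' : m ∈ List.flatMap (cycleWord σ) ms1 ++ s1 ++ [x] := by
    rw [List.append_assoc]
    exact List.mem_append_right _ h1
  cases s2 with
  | cons y q =>
    left
    exact ⟨y, q ++ ms2.flatMap (cycleWord σ), rfl, h2 y q rfl, m, hm',
      hle y (by rw [e2]; simp)⟩
  | nil =>
    right
    have hx : σ x = m := by rw [h3 rfl, Function.iterate_minimalPeriod]
    rw [hx]
    rw [e1, List.pairwise_append, List.pairwise_cons] at hpw
    refine ⟨hm', fun z hz => ?_, fun y q hq => ?_⟩
    · rw [List.append_assoc, List.mem_append] at hz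
      rcases hz with hz | hz
      · obtain ⟨a, ha, hza⟩ := List.mem_flatMap.1 hz
        have h4 : a ∈ heads σ := by rw [e1]; simp [ha]
        exact (mem_heads.1 h4 z (mem_cycleWord.1 hza)).trans (hpw.2.2 a ha m (by simp)).le
      · exact hle z (by rw [e2]; exact hz)
    · cases ms2 with
      | nil => simp at hq
      | cons a t =>
        obtain ⟨t', ht'⟩ := cycleWord_eq_cons σ a
        rw [List.nil_append, List.flatMap_cons, ht'] at hq
        have : a = y := by simpa using (List.cons.inj hq).1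
        rw [← this]
        exact hpw.2.1.1 a (by simp)

theorem dichotomy {σ π : Perm (Fin n)} (h : thetaWord σ = List.ofFn π) (i : Fin n) :
    (∃ j : Fin n, j.val = i.val + 1 ∧ σ (π i) = π j ∧ ∃ k ≤ i, π j ≤ π k) ∨
      (∃ k ≤ i, σ (π i) = π k ∧ (∀ k' ≤ i, π k' ≤ π k) ∧
        ∀ j : Fin n, j.val = i.val + 1 → π k < π j) := by
  have hi : i.val < (List.ofFn π).length := by simp
  have hsplit : List.ofFn π =
      (List.ofFn π).take i ++ π i :: (List.ofFn π).drop (i + 1) := by
    conv_lhs => rw [← List.take_append_drop i (List.ofFn π), List.drop_eq_getElem_cons hi]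
    simp
  have hmem : ∀ z, z ∈ (List.ofFn π).take i ++ [π i] ↔ ∃ k ≤ i, π k = z := by
    intro z
    rw [List.mem_append, List.mem_take_iff_getElem, List.mem_singleton]
    constructor
    · rintro (⟨k, hk, rfl⟩ | rfl)
      · have hk' : k < i.val := by simp at hk; omega
        exact ⟨⟨k, by omega⟩, le_of_lt hk', by simp⟩
      · exact ⟨i, le_rfl, rfl⟩
    · rintro ⟨k, hk, rfl⟩
      rcases lt_or_eq_of_le hk with hk | rfl
      · left
        have : k.val < i.val := hk
        exact ⟨k, by simp; omega, by simp⟩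
      · right; rfl
  have hhead : ∀ y, (∃ q, (List.ofFn π).drop (i + 1) = y :: q) ↔
      ∃ j : Fin n, j.val = i.val + 1 ∧ π j = y := by
    intro y
    constructor
    · rintro ⟨q, hq⟩
      have hlt : i.val + 1 < (List.ofFn π).length := by
        by_contra hcon
        rw [List.drop_eq_nil_of_le (not_lt.1 hcon)] at hq
        simp at hq
      rw [List.drop_eq_getElem_cons hlt] at hq
      refine ⟨⟨i + 1, by simpa using hlt⟩, rfl, ?_⟩
      simpa using (List.cons.inj hq).1
    · rintro ⟨j, hj, rfl⟩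
      have hlt : i.val + 1 < (List.ofFn π).length := by simp; omega
      refine ⟨(List.ofFn π).drop (i + 1 + 1), ?_⟩
      rw [List.drop_eq_getElem_cons hlt]
      congr 1
      simp only [List.getElem_ofFn]
      congr 1
      exact Fin.ext hj.symm
  rcases dichotomy_list σ _ _ _ (h.trans hsplit) with ⟨y, q, h1, h2, z, hz, hyz⟩ | ⟨h1, h2, h3⟩
  · left
    obtain ⟨j, hj, rfl⟩ := (hhead y).1 ⟨q, h1⟩
    obtain ⟨k, hk, rfl⟩ := (hmem z).1 hz
    exact ⟨j, hj, h2, k, hk, hyz⟩
  · right
    obtain ⟨k, hk, hk'⟩ := (hmem _).1 h1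
    refine ⟨k, hk, hk'.symm, fun k' hk'' => ?_, fun j hj => ?_⟩
    · rw [hk']
      exact h2 _ ((hmem _).2 ⟨k', hk'', rfl⟩)
    · obtain ⟨q, hq⟩ := (hhead (π j)).2 ⟨j, hj, rfl⟩
      rw [hk']
      exact h3 _ q hq

theorem theta_unique {σ τ π : Perm (Fin n)} (h1 : thetaWord σ = List.ofFn π)
    (h2 : thetaWord τ = List.ofFn π) : σ = τ := by
  ext1 x
  obtain ⟨i, rfl⟩ := π.surjective x
  rcases dichotomy h1 i with ⟨j, hj, e1, k, hk, hjk⟩ | ⟨k, hk, e1, hmax, hnext⟩ <;>
  rcases dichotomy h2 i with ⟨j', hj', e2, k', hk', hjk'⟩ | ⟨k', hk', e2, hmax', hnext'⟩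
  · rw [e1, e2, Fin.ext (hj.trans hj'.symm)]
  · exact absurd ((hjk.trans (hmax' k hk)).trans_lt (hnext' j hj)) (lt_irrefl _)
  · exact absurd ((hjk'.trans (hmax k' hk')).trans_lt (hnext j' hj')) (lt_irrefl _)
  · rw [e1, e2]
    exact le_antisymm (hmax' k hk) (hmax k' hk')

theorem exists_perm_ofFn {l : List (Fin n)} (h : l.Perm (List.finRange n)) :
    ∃ π : Perm (Fin n), List.ofFn π = l := by
  have hlen : l.length = n := by simpa using h.length_eq
  have hnd : l.Nodup := h.symm.nodup (List.nodup_finRange n)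
  let f : Fin n → Fin n := fun i => l[i.val]'(by omega)
  have hf : List.ofFn f = l := by
    apply List.ext_getElem
    · simp [hlen]
    · intro i _ _
      simp [f]
  have hinj : Function.Injective f := List.nodup_ofFn.1 (hf ▸ hnd)
  exact ⟨Equiv.ofBijective f (Finite.injective_iff_bijective.1 hinj), hf⟩

theorem theta_exists (π : Perm (Fin n)) : ∃ σ : Perm (Fin n), thetaWord σ = List.ofFn π := by
  choose Θ hΘ using fun σ : Perm (Fin n) => exists_perm_ofFn (thetaWord_perm σ)
  have hinj : Function.Injective Θ := fun σ τ h =>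
    theta_unique (hΘ σ).symm (h ▸ (hΘ τ).symm)
  obtain ⟨σ, rfl⟩ := Finite.injective_iff_surjective.1 hinj π
  exact ⟨σ, (hΘ σ).symm⟩

/-- `π` contains the classical pattern `3142`. -/
def Contains3142 (π : Perm (Fin n)) : Prop :=
  ∃ i j k l : Fin n, i < j ∧ j < k ∧ k < l ∧ π j < π l ∧ π l < π i ∧ π i < π k

theorem containsArrow_iff {π : Perm (Fin n)} (h321 : Avoids321 π) :
    ContainsArrow π ↔ Contains3142 π := by
  constructor
  · rintro ⟨σ, hσ, x₁, x₂, x₃, h12, h23, hpos, rfl⟩
    obtain ⟨i, rfl⟩ := π.surjective x₁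
    obtain ⟨l, rfl⟩ := π.surjective x₂
    simp only [Equiv.symm_apply_apply] at hpos
    rcases dichotomy hσ i with ⟨j, hj, e1, k, hk, hjk⟩ | ⟨k, hk, e1, hmax, hnext⟩
    · exfalso
      rw [e1] at h23
      have hne : j ≠ l := by rintro rfl; exact lt_irrefl _ h23
      have hkj : k < j := by
        rw [Fin.lt_def]; have := Fin.le_def.1 hk; omega
      have hjl : j < l := by
        have := Fin.lt_def.1 hpos
        have h' : j.val ≠ l.val := fun h => hne (Fin.ext h)
        rw [Fin.lt_def]; omega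
      exact h321 ⟨k, j, l, hkj, hjl, h23,
        lt_of_le_of_ne hjk (fun h => hkj.ne' (π.injective h))⟩
    · rw [e1] at h23
      have hl := Fin.lt_def.1 hpos
      let j : Fin n := ⟨i.val + 1, by have := l.isLt; omega⟩
      have hkj := hnext j rfl
      have hne : j ≠ l := by
        intro h
        rw [h] at hkj
        exact lt_asymm hkj h23
      have hki : k < i := lt_of_le_of_ne hk (by
        rintro rfl
        exact lt_asymm h12 h23)
      have hjl : j < l := by
        have h' : j.val ≠ l.val := fun h => hne (Fin.ext h)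
        have : j.val = i.val + 1 := rfl
        rw [Fin.lt_def]; omega
      exact ⟨k, i, j, l, hki, by rw [Fin.lt_def]; simp [j], hjl, h12, h23, hkj⟩
  · classical
    rintro ⟨i, j, k, l, hij, hjk, hkl, h1, h2, h3⟩
    obtain ⟨σ, hσ⟩ := theta_exists π
    obtain ⟨M, hM, hMmax⟩ := Finset.exists_max_image
      (Finset.univ.filter (fun t : Fin n => t ≤ j)) π ⟨j, by simp⟩
    simp only [Finset.mem_filter, Finset.mem_univ, true_and] at hM hMmax
    have hiM : π i ≤ π M := hMmax i hij.le
    have hMk : π M < π k := by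
      have hlt : M < k := hM.trans_lt hjk
      by_contra hcon
      exact h321 ⟨M, k, l, hlt, hkl, h2.trans h3,
        lt_of_le_of_ne (not_lt.1 hcon) (fun h => hlt.ne' (π.injective h))⟩
    obtain ⟨k', hk', hk'min⟩ := Finset.exists_min_image
      (Finset.univ.filter (fun t : Fin n => j < t ∧ π M < π t)) id ⟨k, by simp [hjk, hMk]⟩
    simp only [Finset.mem_filter, Finset.mem_univ, true_and, id] at hk' hk'min
    have hk'k : k' ≤ k := hk'min k ⟨hjk, hMk⟩
    have hjk' := Fin.lt_def.1 hk'.1
    let e : Fin n := ⟨k'.val - 1, by have := k'.isLt; omega⟩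
    have hev : e.val = k'.val - 1 := rfl
    have hje : j ≤ e := by rw [Fin.le_def]; omega
    have hek' : e < k' := by rw [Fin.lt_def]; omega
    have hall : ∀ t ≤ e, π t ≤ π M := by
      intro t ht
      by_cases htj : t ≤ j
      · exact hMmax t htj
      · by_contra hcon
        exact absurd (hk'min t ⟨not_le.1 htj, not_le.1 hcon⟩) (not_le.2 (ht.trans_lt hek'))
    have hσe : σ (π e) = π M := by
      rcases dichotomy hσ e with ⟨j', hj', _, t, ht, hjt⟩ | ⟨t, ht, e1, hmax, _⟩
      · have : j' = k' := Fin.ext (by omega)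
        rw [this] at hjt
        exact absurd (hjt.trans (hall t ht)) (not_le.2 hk'.2)
      · rw [e1]
        exact le_antisymm (hall t ht) (hmax M (hM.trans hje))
    have hMj : M < j := lt_of_le_of_ne hM (by
      rintro rfl
      exact absurd hiM (not_le.2 (h1.trans h2)))
    have hMe : M < e := hMj.trans_le hje
    have hel : e < l := (hek'.trans_le hk'k).trans hkl
    have heM : π e < π M := lt_of_le_of_ne (hall e le_rfl) (fun h => hMe.ne' (π.injective h))
    have hπel : π e < π l := by
      by_contra hcon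
      exact h321 ⟨M, e, l, hMe, hel,
        lt_of_le_of_ne (not_lt.1 hcon) (fun h => hel.ne' (π.injective h)), heM⟩
    exact ⟨σ, hσ, π e, π l, π M, hπel, h2.trans_le hiM, by simpa using hel, hσe⟩

end Pool.Agent.MP_1ce666_co
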